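import Pool.Agent.H458.AG.Def
import Pool.Agent.H747.AU458.GC

/-!
# Project AG (helper458), part `S_GC`: a lower bound for the number of good residues (helper686, after the case `g = 1`)
-/

set_option autoImplicit false
set_option linter.all false

open Polynomial IsDedekindDomain NumberField
open scoped Classical

namespace Pool.Agent.H686.AG458

open Pool.Agent.N783.PF (sp rd Cg)
open Pool.Agent.H458.AU (PrQ)
open Pool.Agent.H458.AG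
open Pool.Agent.H747.AU458 (Ps sp_ne mem_Ps nm card_Ps fin_quot)

section

variable {F : Type} [Field F] [NumberField F]

/-- The good residues at one prime, as polynomials. -/
def Sp (g : ℕ) (𝔮 𝔭 : Ideal (𝓞 F)) : Set ((𝓞 F ⧸ 𝔭)[X]) :=
  {p | p.Monic ∧ p.natDegree = 2 * g + 1 ∧ p.coeff (2 * g) = 0 ∧
    (𝔭 = 𝔮 → p.coeff 0 = 0 ∧ Irreducible p.divX) ∧ (𝔭 ≠ 𝔮 → Irreducible p)}

/-- The polynomial with given coefficients. -/
noncomputable def fp (g : ℕ) (a : ℕ → 𝓞 F) : (𝓞 F)[X] :=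
  X ^ (2 * g + 1) + ∑ j ∈ Finset.range (2 * g), C (a j) * X ^ j

theorem fp_coeff (g : ℕ) (a : ℕ → 𝓞 F) (i : ℕ) :
    (fp g a).coeff i = (if i = 2 * g + 1 then 1 else 0) + (if i < 2 * g then a i else 0) := by
  unfold fp
  rw [coeff_add, coeff_X_pow, finsetSum_coeff]
  congr 1
  simp only [coeff_C_mul, coeff_X_pow, mul_ite, mul_one, mul_zero]
  rw [Finset.sum_ite_eq]
  simp only [Finset.mem_range]

theorem fp_pol (g : ℕ) (a : ℕ → 𝓞 F) : Pol g (fp g a) := by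
  have h1 : (fp g a).natDegree ≤ 2 * g + 1 := by
    rw [natDegree_le_iff_coeff_eq_zero]
    intro i hi
    rw [fp_coeff, if_neg (by omega), if_neg (by omega), add_zero]
  have h2 : (fp g a).coeff (2 * g + 1) = 1 := by
    rw [fp_coeff, if_pos rfl, if_neg (by omega), add_zero]
  have h3 : (fp g a).Monic := monic_of_natDegree_le_of_coeff_eq_one _ h1 h2
  refine ⟨h3, ?_, ?_⟩
  · refine le_antisymm h1 (le_natDegree_of_ne_zero ?_)
    rw [h2]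
    exact one_ne_zero
  · rw [fp_coeff, if_neg (by omega), if_neg (by omega), add_zero]

theorem fp_rd {g : ℕ} {a : ℕ → 𝓞 F} {𝔭 : Ideal (𝓞 F)} {p : (𝓞 F ⧸ 𝔭)[X]} (h1 : p.Monic)
    (h2 : p.natDegree = 2 * g + 1) (h3 : p.coeff (2 * g) = 0)
    (h4 : ∀ j, Ideal.Quotient.mk 𝔭 (a j) = p.coeff j) : rd 𝔭 (fp g a) = p := by
  refine Polynomial.ext fun i => ?_
  unfold rd
  rw [coeff_map, fp_coeff, map_add]
  rcases lt_trichotomy i (2 * g) with h | h | h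
  · rw [if_neg (by omega), if_pos h, map_zero, zero_add, h4]
  · rw [if_neg (by omega), if_neg (by omega), map_zero, add_zero, h, h3]
  · rcases Nat.lt_or_ge (2 * g + 1) i with h5 | h5
    · rw [if_neg (by omega), if_neg (by omega), map_zero, add_zero,
        coeff_eq_zero_of_natDegree_lt (by rw [h2]; exact h5)]
    · have h6 : i = 2 * g + 1 := by omega
      have e1 := h1.coeff_natDegree
      rw [h2] at e1
      rw [if_pos h6, if_neg (by omega), map_one, map_zero, add_zero, h6, e1]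

theorem rd_divX (𝔭 : Ideal (𝓞 F)) (f : (𝓞 F)[X]) : rd 𝔭 f.divX = (rd 𝔭 f).divX := by
  refine Polynomial.ext fun i => ?_
  unfold rd
  rw [coeff_map, coeff_divX, coeff_divX, coeff_map]

/-- lifting of polynomials -/
theorem lift {g q : ℕ} (hq : q.Prime) (p : ∀ 𝔭 : Ps F q, (𝓞 F ⧸ 𝔭.1)[X])
    (hp : ∀ 𝔭, (p 𝔭).Monic ∧ (p 𝔭).natDegree = 2 * g + 1 ∧ (p 𝔭).coeff (2 * g) = 0) :
    ∃ f : (𝓞 F)[X], Pol g f ∧ ∀ 𝔭 : Ps F q, rd 𝔭.1 f = p 𝔭 := by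
  have h1 : ∀ j : ℕ, ∃ y : 𝓞 F, ∀ 𝔭 : Ps F q, Ideal.Quotient.mk 𝔭.1 y = (p 𝔭).coeff j := by
    intro j
    obtain ⟨ab, hab⟩ := Pool.Agent.H747.AU458.crt (F := F) hq fun 𝔭 => ((p 𝔭).coeff j, 0)
    exact ⟨ab.1, fun 𝔭 => (Prod.mk.inj (hab 𝔭)).1⟩
  choose a ha using h1
  exact ⟨fp g a, fp_pol g a, fun 𝔭 => fp_rd (hp 𝔭).1 (hp 𝔭).2.1 (hp 𝔭).2.2 fun j => ha j 𝔭⟩

theorem le_GR {g q : ℕ} (hq : q.Prime) {𝔮 : Ideal (𝓞 F)} (h𝔮 : 𝔮.IsPrime) (hm : (q : 𝓞 F) ∈ 𝔮) :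
    ∏ 𝔭 : Ps F q, (Sp g 𝔮 𝔭.1).ncard ≤ (GR g q 𝔮).ncard := by
  have h0 : ∏ 𝔭 : Ps F q, (Sp g 𝔮 𝔭.1).ncard = Nat.card (∀ 𝔭 : Ps F q, Sp g 𝔮 𝔭.1) := by
    rw [Nat.card_pi]
    rfl
  rw [h0]
  haveI : Finite (𝓞 F ⧸ sp F q) := fin_quot (sp_ne hq)
  have hle : ∀ 𝔭 : Ps F q, sp F q ≤ 𝔭.1 := fun 𝔭 => by
    have := ((mem_Ps hq).1 𝔭.2).2
    rwa [sp, Ideal.span_singleton_le_iff_mem]
  have hex : ∀ s : (∀ 𝔭 : Ps F q, Sp g 𝔮 𝔭.1), ∃ f : (𝓞 F)[X], Pol g f ∧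
      ∀ 𝔭 : Ps F q, rd 𝔭.1 f = (s 𝔭).1 := fun s =>
    lift hq (fun 𝔭 => (s 𝔭).1) fun 𝔭 => ⟨(s 𝔭).2.1, (s 𝔭).2.2.1, (s 𝔭).2.2.2.1⟩
  choose f hf hfr using hex
  have hG : ∀ s : (∀ 𝔭 : Ps F q, Sp g 𝔮 𝔭.1), mkr g q (f s) ∈ GR g q 𝔮 := by
    intro s
    rw [mem_GR hm (hf s)]
    have h1 : 𝔮 ∈ Ps F q := (mem_Ps hq).2 ⟨h𝔮, hm⟩
    have h2 := hfr s ⟨𝔮, h1⟩
    have h3 := (s ⟨𝔮, h1⟩).2.2.2.2.1 rfl
    rw [← h2] at h3
    refine ⟨?_, ?_, fun 𝔭 h4 h5 h6 => ?_⟩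
    · have h4 := h3.1
      unfold rd at h4
      rw [coeff_map] at h4
      exact Ideal.Quotient.eq_zero_iff_mem.1 h4
    · rw [rd_divX]
      exact h3.2
    · have h7 : 𝔭 ∈ Ps F q := (mem_Ps hq).2 ⟨h4, h5⟩
      have h8 := hfr s ⟨𝔭, h7⟩
      have h9 := (s ⟨𝔭, h7⟩).2.2.2.2.2 h6
      rw [← h8] at h9
      exact h9
  have hinj : Function.Injective fun s : (∀ 𝔭 : Ps F q, Sp g 𝔮 𝔭.1) =>
      (⟨mkr g q (f s), hG s⟩ : GR g q 𝔮) := by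
    intro s s' h
    have h2 : mkr g q (f s) = mkr g q (f s') := congrArg Subtype.val h
    rw [mkr_eq (hf s) (hf s')] at h2
    funext 𝔭
    apply Subtype.ext
    rw [← hfr s 𝔭, ← hfr s' 𝔭]
    exact rd_eq (hle 𝔭) h2
  exact Nat.card_le_card_of_injective _ hinj

/-- the number of the polynomials at the distinguished prime -/
theorem ncard_divX {k : Type} [Field k] {g : ℕ} (hg : 1 ≤ g) :
    {h : k[X] | h.Monic ∧ h.natDegree = 2 * g ∧ h.coeff (2 * g - 1) = 0 ∧ Irreducible h}.ncard =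
    {p : k[X] | p.Monic ∧ p.natDegree = 2 * g + 1 ∧ p.coeff (2 * g) = 0 ∧
      (p.coeff 0 = 0 ∧ Irreducible p.divX)}.ncard := by
  have h1 : {p : k[X] | p.Monic ∧ p.natDegree = 2 * g + 1 ∧ p.coeff (2 * g) = 0 ∧
      (p.coeff 0 = 0 ∧ Irreducible p.divX)} = (fun h : k[X] => X * h) ''
      {h : k[X] | h.Monic ∧ h.natDegree = 2 * g ∧ h.coeff (2 * g - 1) = 0 ∧ Irreducible h} := by
    ext p
    constructor
    · rintro ⟨a1, a2, a3, a4, a5⟩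
      have e : X * p.divX = p := by
        have := divX_mul_X_add p
        rw [a4, C_0, add_zero, mul_comm] at this
        exact this
      have hp0 : p.divX ≠ 0 := a5.ne_zero
      have d1 : p.divX.natDegree = 2 * g := by
        rw [natDegree_divX_eq_natDegree_tsub_one, a2]
        omega
      refine ⟨p.divX, ⟨?_, d1, ?_, a5⟩, e⟩
      · unfold Monic
        rw [leadingCoeff, d1, coeff_divX, ← a2]
        exact a1
      · rw [coeff_divX]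
        have : 2 * g - 1 + 1 = 2 * g := by omega
        rw [this]
        exact a3
    · rintro ⟨h, ⟨a1, a2, a3, a4⟩, rfl⟩
      refine ⟨monic_X.mul a1, ?_, ?_, ?_, ?_⟩
      · rw [natDegree_X_mul a1.ne_zero, a2]
      · have : 2 * g = (2 * g - 1) + 1 := by omega
        show (X * h).coeff (2 * g) = 0
        rw [this, coeff_X_mul]
        exact a3
      · exact coeff_X_mul_zero h
      · show Irreducible (X * h).divX
        have : (X * h).divX = h := by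
          refine Polynomial.ext fun i => ?_
          rw [coeff_divX, coeff_X_mul]
        rw [this]
        exact a4
  rw [h1, Set.ncard_image_of_injective]
  intro a b hab
  exact mul_left_cancel₀ X_ne_zero hab

theorem le_Sp (h : S_IRC) {g : ℕ} (hg : 1 ≤ g) {q : ℕ} (hq : q.Prime) (hqg : 2 * g + 1 < q)
    {𝔮 : Ideal (𝓞 F)} (hN : Ideal.absNorm 𝔮 = q) {𝔭 : Ideal (𝓞 F)} (h𝔭 : 𝔭 ∈ Ps F q) :
    Ideal.absNorm 𝔭 ^ (2 * g) ≤
      2 * (2 * g + 1) * (if 𝔭 = 𝔮 then q else 1) * (Sp g 𝔮 𝔭).ncard := by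
  have h1 := (mem_Ps hq).1 h𝔭
  have h2 : 𝔭 ≠ ⊥ := by
    rintro rfl
    have := h1.2
    rw [Ideal.mem_bot] at this
    exact hq.ne_zero (by exact_mod_cast this)
  haveI := h1.1
  haveI hmax : 𝔭.IsMaximal := h1.1.isMaximal h2
  haveI := fin_quot h2
  letI : Field (𝓞 F ⧸ 𝔭) := Ideal.Quotient.field 𝔭
  have hc : ((q : ℕ) : 𝓞 F ⧸ 𝔭) = 0 := by
    have := Ideal.Quotient.eq_zero_iff_mem.2 h1.2
    rwa [map_natCast] at this
  haveI : Fact q.Prime := ⟨hq⟩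
  haveI hchar : CharP (𝓞 F ⧸ 𝔭) q := (CharP.charP_iff_prime_eq_zero hq).2 hc
  have hfac : ∀ n : ℕ, n ≤ 2 * g + 1 → ((n.factorial : ℕ) : 𝓞 F ⧸ 𝔭) ≠ 0 := by
    intro n hn h4
    rw [CharP.cast_eq_zero_iff (𝓞 F ⧸ 𝔭) q, hq.dvd_factorial] at h4
    omega
  have hcard : Ideal.absNorm 𝔭 = Nat.card (𝓞 F ⧸ 𝔭) := rfl
  by_cases he : 𝔭 = 𝔮
  · rw [if_pos he]
    have h5 := h (𝓞 F ⧸ 𝔭) (2 * g) (by omega) (hfac _ (by omega))
    rw [ncard_divX hg, ← hcard] at h5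
    have h6 : {p : (𝓞 F ⧸ 𝔭)[X] | p.Monic ∧ p.natDegree = 2 * g + 1 ∧ p.coeff (2 * g) = 0 ∧
      (p.coeff 0 = 0 ∧ Irreducible p.divX)} = Sp g 𝔮 𝔭 := by
      ext p
      constructor
      · rintro ⟨a1, a2, a3, a4⟩
        exact ⟨a1, a2, a3, fun _ => a4, fun h => absurd he h⟩
      · rintro ⟨a1, a2, a3, a4, _⟩
        exact ⟨a1, a2, a3, a4 he⟩
    rw [h6] at h5
    have h7 : Ideal.absNorm 𝔭 = q := by rw [he, hN]
    rw [h7] at h5 ⊢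
    have h8 : q ^ (2 * g) = q * q ^ (2 * g - 1) := by
      rw [← pow_succ']
      congr 1
      omega
    rw [h8]
    calc q * q ^ (2 * g - 1) ≤ q * (2 * (2 * g) * (Sp g 𝔮 𝔭).ncard) := Nat.mul_le_mul_left _ h5
      _ = 2 * (2 * g) * q * (Sp g 𝔮 𝔭).ncard := by ring
      _ ≤ 2 * (2 * g + 1) * q * (Sp g 𝔮 𝔭).ncard := by gcongr; omega
  · rw [if_neg he, mul_one, hcard]
    have h5 := h (𝓞 F ⧸ 𝔭) (2 * g + 1) (by omega) (hfac _ le_rfl)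
    have h6 : {p : (𝓞 F ⧸ 𝔭)[X] | p.Monic ∧ p.natDegree = 2 * g + 1 ∧
      p.coeff (2 * g + 1 - 1) = 0 ∧ Irreducible p} = Sp g 𝔮 𝔭 := by
      ext p
      constructor
      · rintro ⟨a1, a2, a3, a4⟩
        exact ⟨a1, a2, a3, fun h => absurd h he, fun _ => a4⟩
      · rintro ⟨a1, a2, a3, _, a4⟩
        exact ⟨a1, a2, a3, a4 he⟩
    rw [h6] at h5
    exact h5

end

/-- **S_GC**, from `S_IRC`. -/
theorem gc (h : Pool.Agent.H458.AG.S_IRC) : Pool.Agent.H458.AG.S_GC := by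
  intro F _ _ g hg
  refine ⟨1 / ((2 * (2 * g + 1) : ℕ) : ℝ) ^ Module.finrank ℚ F, by positivity,
    fun W q 𝔮 hW hgW hP hN => ?_⟩
  have hq := hP.pr
  have hqg : 2 * g + 1 < q := lt_of_le_of_lt hgW hP.big
  have h1 : ∏ 𝔭 : Ps F q, (Ideal.absNorm 𝔭.1) ^ (2 * g) ≤
      ∏ 𝔭 : Ps F q, (2 * (2 * g + 1) * (if 𝔭.1 = 𝔮 then q else 1) * (Sp g 𝔮 𝔭.1).ncard) :=
    Finset.prod_le_prod' fun 𝔭 _ => le_Sp h hg hq hqg hN 𝔭.2
  have h2 : ∏ 𝔭 : Ps F q, (Ideal.absNorm 𝔭.1) ^ (2 * g) = q ^ (2 * g * Module.finrank ℚ F) := by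
    rw [Finset.prod_pow, Finset.prod_coe_sort (Ps F q) fun 𝔭 => Ideal.absNorm 𝔭, nm hq hP.unr,
      ← pow_mul, mul_comm]
  have h3 : ∏ 𝔭 : Ps F q, (2 * (2 * g + 1) * (if 𝔭.1 = 𝔮 then q else 1) * (Sp g 𝔮 𝔭.1).ncard) =
      (2 * (2 * g + 1)) ^ (Ps F q).card * q * ∏ 𝔭 : Ps F q, (Sp g 𝔮 𝔭.1).ncard := by
    rw [Finset.prod_mul_distrib, Finset.prod_mul_distrib, Finset.prod_const, Finset.card_univ,
      Fintype.card_coe]
    rw [Finset.prod_coe_sort (Ps F q) fun 𝔭 => if 𝔭 = 𝔮 then q else 1, Finset.prod_ite_eq',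
      if_pos ((mem_Ps hq).2 ⟨hP.qp, hP.mem⟩)]
  rw [h2, h3] at h1
  have h4 := le_GR (g := g) hq hP.qp hP.mem
  have h5 : (2 * (2 * g + 1)) ^ (Ps F q).card ≤ (2 * (2 * g + 1)) ^ Module.finrank ℚ F :=
    Nat.pow_le_pow_right (by omega) (card_Ps hq hP.unr)
  have h6 : q ^ (2 * g * Module.finrank ℚ F) ≤
      (2 * (2 * g + 1)) ^ Module.finrank ℚ F * q * (GR g q 𝔮).ncard :=
    h1.trans (Nat.mul_le_mul (Nat.mul_le_mul_right _ h5) h4)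
  have h7 : ((q : ℝ)) ^ (2 * g * Module.finrank ℚ F) ≤
      ((2 * (2 * g + 1) : ℕ) : ℝ) ^ Module.finrank ℚ F * q * ((GR g q 𝔮).ncard : ℝ) := by
    exact_mod_cast h6
  have hq0 : (0 : ℝ) < q := by exact_mod_cast hq.pos
  have hc0 : (0 : ℝ) < ((2 * (2 * g + 1) : ℕ) : ℝ) ^ Module.finrank ℚ F := by positivity
  unfold dl
  rw [div_div, div_le_div_iff₀ (by positivity) (by positivity), one_mul]
  linarith

end Pool.Agent.H686.AG458
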